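import Mathlib
import Pool.Agent.H128Z.Tverberg

/-!
The modified Tverberg A-P conjecture fails: `(2, 2, 4)` is strongly admissible for `d = 4`, `r = 3`
and is not Tverberg prescribable.
-/

set_option autoImplicit false

namespace Pool.Agent.Results.MP_110560_co.Counterexample

/-- The face of the standard simplex `Δ^N` spanned by the vertex set `S`. -/
def face {N : ℕ} (S : Finset (Fin (N + 1))) : Set (stdSimplex ℝ (Fin (N + 1))) :=
  {x | ∀ i, i ∉ S → x.val i = 0}

/-- `σ` is a Tverberg partition for `f`: `r` pairwise disjoint nonempty faces (given by their vertex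
sets) whose images under `f` have a common point. -/
def IsTverbergPartition {N d r : ℕ} (f : stdSimplex ℝ (Fin (N + 1)) → EuclideanSpace ℝ (Fin d))
    (σ : Fin r → Finset (Fin (N + 1))) : Prop :=
  (∀ i, (σ i).Nonempty) ∧ (∀ i j, i ≠ j → Disjoint (σ i) (σ j)) ∧
    (⋂ i, f '' face (σ i)).Nonempty

/-- `(D 0, …, D (r-1))` is Tverberg prescribable in dimension `d`. -/
def Prescribable (d r : ℕ) (D : Fin r → ℤ) : Prop :=
  ∃ N : ℕ, ∀ f : stdSimplex ℝ (Fin (N + 1)) → EuclideanSpace ℝ (Fin d), Continuous f →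
    ∃ σ : Fin r → Finset (Fin (N + 1)),
      IsTverbergPartition f σ ∧ ∀ i, ((σ i).card : ℤ) - 1 = D i

/-- `(D 0, …, D (r-1))` is strongly admissible for `d`. -/
def StronglyAdmissible (d r : ℕ) (D : Fin r → ℤ) : Prop :=
  (∀ i, ((r : ℝ) - 1) / (r : ℝ) * ((d : ℝ) - 1) ≤ (D i : ℝ) ∧ D i ≤ (d : ℤ)) ∧
    ∑ i, ((d : ℤ) - D i) ≤ (d : ℤ)

theorem result : ∃ (d r : ℕ) (D : Fin r → ℤ), 2 ≤ r ∧ r < d ∧ r.Prime ∧
    StronglyAdmissible d r D ∧ ¬ Prescribable d r D := by
  refine ⟨4, 3, ![2, 2, 4], by norm_num, by norm_num, Nat.prime_three, ⟨?_, ?_⟩, ?_⟩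
  · intro i
    fin_cases i <;> norm_num
  · simp [Fin.sum_univ_succ]
  · rintro ⟨N, hN⟩
    obtain ⟨f, hf, hno⟩ := Pool.Agent.H128Z.Tverberg.main (N + 1)
    obtain ⟨σ, ⟨_, hdis, y, hy⟩, hdim⟩ :=
      hN (fun x => WithLp.toLp 2 (f x.val)) (by fun_prop)
    rw [Set.mem_iInter] at hy
    obtain ⟨p0, hp0, e0⟩ := hy 0
    obtain ⟨p1, hp1, e1⟩ := hy 1
    obtain ⟨p2, hp2, e2⟩ := hy 2
    have d0 := hdim 0
    have d1 := hdim 1
    have d2 := hdim 2
    simp only [Matrix.cons_val_zero, Matrix.cons_val_one, Matrix.cons_val] at d0 d1 d2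
    refine hno (σ 0) (σ 1) (σ 2) (by omega) (by omega) (by omega) (hdis 0 1 (by decide))
      (hdis 0 2 (by decide)) (hdis 1 2 (by decide)) p0.val p0.property p1.val p1.property
      p2.val p2.property hp0 hp1 hp2 ?_ ?_
    · exact WithLp.toLp_injective 2 (e0.trans e1.symm)
    · exact WithLp.toLp_injective 2 (e0.trans e2.symm)

end Pool.Agent.Results.MP_110560_co.Counterexample
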